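import Pool.Agent.W361.LQ.Stm
import Pool.Agent.W366.LP.Lt

/-!
# Strict inequalities between distances and rational numbers are computably enumerable
-/

set_option autoImplicit false

namespace Pool.Agent.W89.LQ.Lt

open Pool.Agent.Helper227 Pool.Agent.H685R3 Pool.Agent.W952.LP
open Pool.Agent.W366.LP (two_pow)

/-- `((a, b, h), k)`: `(h + 1) / 2 ^ k < a / (b + 1)` -/
def R1 (x : (ℕ × ℕ × ℕ) × ℕ) : Prop :=
  (x.1.2.2 + 1) * (x.1.2.1 + 1) < x.1.1 * 2 ^ x.2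

/-- `((a, b, h), k)`: `a / (b + 1) + 1 / 2 ^ k < h / 2 ^ k` -/
def R2 (x : (ℕ × ℕ × ℕ) × ℕ) : Prop :=
  x.1.1 * 2 ^ x.2 + (x.1.2.1 + 1) < x.1.2.2 * (x.1.2.1 + 1)

theorem pa : Primrec fun x : (ℕ × ℕ × ℕ) × ℕ => x.1.1 := Primrec.fst.comp Primrec.fst

theorem pb : Primrec fun x : (ℕ × ℕ × ℕ) × ℕ => x.1.2.1 + 1 :=
  Primrec.succ.comp (Primrec.fst.comp (Primrec.snd.comp Primrec.fst))

theorem ph : Primrec fun x : (ℕ × ℕ × ℕ) × ℕ => x.1.2.2 :=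
  Primrec.snd.comp (Primrec.snd.comp Primrec.fst)

theorem pm : Primrec fun x : (ℕ × ℕ × ℕ) × ℕ => 2 ^ x.2 := two_pow.comp Primrec.snd

theorem prim_R1 : PrimrecPred R1 :=
  Primrec.nat_lt.comp (Primrec.nat_mul.comp (Primrec.succ.comp ph) pb) (Primrec.nat_mul.comp pa pm)

theorem prim_R2 : PrimrecPred R2 :=
  Primrec.nat_lt.comp (Primrec.nat_add.comp (Primrec.nat_mul.comp pa pm) pb)
    (Primrec.nat_mul.comp ph pb)

theorem R1_iff (a b h k : ℕ) : R1 ((a, b, h), k) ↔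
    (h : ℝ) / 2 ^ k + 1 / 2 ^ k < (a : ℝ) / ((b : ℝ) + 1) := by
  unfold R1
  simp only
  have h1 : (0 : ℝ) < (b : ℝ) + 1 := by positivity
  have h3 : (0 : ℝ) < (2 : ℝ) ^ k := by positivity
  rw [← add_div, div_lt_div_iff₀ h3 h1]
  norm_cast

theorem R2_iff (a b h k : ℕ) : R2 ((a, b, h), k) ↔
    (a : ℝ) / ((b : ℝ) + 1) + 1 / 2 ^ k < (h : ℝ) / 2 ^ k := by
  unfold R2
  simp only
  have h1 : (0 : ℝ) < (b : ℝ) + 1 := by positivity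
  have h3 : (0 : ℝ) < (2 : ℝ) ^ k := by positivity
  rw [div_add_div _ _ h1.ne' h3.ne', div_lt_div_iff₀ (mul_pos h1 h3) h3]
  have e : ((a : ℝ) * 2 ^ k + ((b : ℝ) + 1) * 1) * 2 ^ k <
      (h : ℝ) * (((b : ℝ) + 1) * 2 ^ k) ↔
      ((a : ℝ) * 2 ^ k + ((b : ℝ) + 1)) < (h : ℝ) * ((b : ℝ) + 1) := by
    rw [mul_one, ← mul_assoc]
    exact mul_lt_mul_iff_of_pos_right h3
  rw [e]
  norm_cast

theorem main : Pool.Agent.W361.LQ.S_LT := by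
  intro d h hh hd
  have h1 : Computable fun x : (ℕ × ℕ × ℕ × ℕ) × ℕ =>
      ((x.1.2.2.1, x.1.2.2.2, h (Nat.pair x.1.1 (Nat.pair x.1.2.1 x.2))), x.2) := by
    have e1 : Computable fun x : (ℕ × ℕ × ℕ × ℕ) × ℕ => Nat.pair x.1.1 (Nat.pair x.1.2.1 x.2) :=
      (Primrec₂.natPair.comp (Primrec.fst.comp Primrec.fst)
        (Primrec₂.natPair.comp (Primrec.fst.comp (Primrec.snd.comp Primrec.fst))
          Primrec.snd)).to_comp
    have e2 : Computable fun x : (ℕ × ℕ × ℕ × ℕ) × ℕ => x.1.2.2.1 :=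
      (Primrec.fst.comp (Primrec.snd.comp (Primrec.snd.comp Primrec.fst))).to_comp
    have e3 : Computable fun x : (ℕ × ℕ × ℕ × ℕ) × ℕ => x.1.2.2.2 :=
      (Primrec.snd.comp (Primrec.snd.comp (Primrec.snd.comp Primrec.fst))).to_comp
    exact (e2.pair (e3.pair (hh.comp e1))).pair Primrec.snd.to_comp
  constructor
  · have h2 : S1 fun x : (ℕ × ℕ × ℕ × ℕ) × ℕ =>
        R1 ((x.1.2.2.1, x.1.2.2.2, h (Nat.pair x.1.1 (Nat.pair x.1.2.1 x.2))), x.2) :=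
      (S1.of_prim prim_R1).comp_computable h1
    have h3 : S1 fun q : ℕ × ℕ × ℕ × ℕ => ∃ m : ℕ,
        R1 ((q.2.2.1, q.2.2.2, h (Nat.pair q.1 (Nat.pair q.2.1 m))), m) :=
      S1.ex (p := fun (q : ℕ × ℕ × ℕ × ℕ) (m : ℕ) =>
        R1 ((q.2.2.1, q.2.2.2, h (Nat.pair q.1 (Nat.pair q.2.1 m))), m)) h2
    refine h3.of_eq fun q => ?_
    constructor
    · rintro ⟨m, hm⟩
      rw [R1_iff] at hm
      have h4 := (abs_le.1 (hd q.1 q.2.1 m)).1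
      linarith
    · intro hq
      obtain ⟨m, hm⟩ := exists_pow_lt_of_lt_one
        (x := ((q.2.2.1 : ℝ) / ((q.2.2.2 : ℝ) + 1) - d q.1 q.2.1) / 2)
        (by linarith) (y := (1 / 2 : ℝ)) (by norm_num)
      refine ⟨m, (R1_iff _ _ _ _).2 ?_⟩
      have h4 := (abs_le.1 (hd q.1 q.2.1 m)).2
      rw [one_div_pow] at hm
      linarith
  · have h2 : S1 fun x : (ℕ × ℕ × ℕ × ℕ) × ℕ =>
        R2 ((x.1.2.2.1, x.1.2.2.2, h (Nat.pair x.1.1 (Nat.pair x.1.2.1 x.2))), x.2) :=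
      (S1.of_prim prim_R2).comp_computable h1
    have h3 : S1 fun q : ℕ × ℕ × ℕ × ℕ => ∃ m : ℕ,
        R2 ((q.2.2.1, q.2.2.2, h (Nat.pair q.1 (Nat.pair q.2.1 m))), m) :=
      S1.ex (p := fun (q : ℕ × ℕ × ℕ × ℕ) (m : ℕ) =>
        R2 ((q.2.2.1, q.2.2.2, h (Nat.pair q.1 (Nat.pair q.2.1 m))), m)) h2
    refine h3.of_eq fun q => ?_
    constructor
    · rintro ⟨m, hm⟩
      rw [R2_iff] at hm
      have h4 := (abs_le.1 (hd q.1 q.2.1 m)).2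
      linarith
    · intro hq
      obtain ⟨m, hm⟩ := exists_pow_lt_of_lt_one
        (x := (d q.1 q.2.1 - (q.2.2.1 : ℝ) / ((q.2.2.2 : ℝ) + 1)) / 2)
        (by linarith) (y := (1 / 2 : ℝ)) (by norm_num)
      refine ⟨m, (R2_iff _ _ _ _).2 ?_⟩
      have h4 := (abs_le.1 (hd q.1 q.2.1 m)).1
      rw [one_div_pow] at hm
      linarith

end Pool.Agent.W89.LQ.Lt
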